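import Pool.Agent.H43.TotMain

set_option autoImplicit false
open Pool.Agent.H43.Tot

universe u v

namespace Pool.Agent.Results.MP_8e1749_lc.Modular

/-- Total termination is modular for disjoint rewrite systems over countable signatures. -/
theorem result (L₁ L₂ : FirstOrder.Language.{u, v})
    [Countable (Σ n, L₁.Functions n)] [Countable (Σ n, L₂.Functions n)]
    (R₁ : Set (L₁.Term ℕ × L₁.Term ℕ)) (R₂ : Set (L₂.Term ℕ × L₂.Term ℕ))
    (_ : IsTRS R₁) (_ : IsTRS R₂)
    (h₁ : TotallyTerminating R₁) (h₂ : TotallyTerminating R₂) :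
    TotallyTerminating (union R₁ R₂) :=
  modular R₁ R₂ h₁ h₂

end Pool.Agent.Results.MP_8e1749_lc.Modular
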